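import Pool.Agent.N440.LB.Stm2
import Pool.Agent.N398.LB.FB

/-!
# LB/FO: equality of the norms of the Fourier coefficients `k - 1` and `k + 1` for even `k`
-/

set_option autoImplicit false

namespace Pool.Agent.N222.LB.FO

open Complex Set MeasureTheory Filter Topology
open Pool.Agent.N398.LB.FB
open scoped Real ComplexConjugate

variable {f : ℂ → ℝ → ℝ} {C : ℝ}

/-- the integrand of the coefficient -/
noncomputable def K (g : ℝ → ℝ) (m : ℕ) (θ : ℝ) : ℂ := (g θ : ℂ) * exp (((m : ℝ) * θ : ℝ) * I)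

theorem K_per {g : ℝ → ℝ} (hp : ∀ θ, g (θ + 2 * π) = g θ) (m : ℕ) :
    Function.Periodic (K g m) (2 * π) := by
  intro θ
  unfold K
  rw [hp]
  congr 1
  have e : (((m : ℝ) * (θ + 2 * π) : ℝ) : ℂ) * I = ((m : ℝ) * θ : ℝ) * I + m * (2 * π * I) := by
    push_cast; ring
  rw [e, Complex.exp_add, Complex.exp_nat_mul_two_pi_mul_I, mul_one]

theorem K_shift (g : ℝ → ℝ) (m : ℕ) (θ : ℝ) :
    (g (θ + π) : ℂ) * exp (((m : ℝ) * θ : ℝ) * I) = (-1) ^ m * K g m (θ + π) := by
  unfold K
  have e : (((m : ℝ) * (θ + π) : ℝ) : ℂ) * I = ((m : ℝ) * θ : ℝ) * I + m * (π * I) := by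
    push_cast; ring
  rw [e, Complex.exp_add, Complex.exp_nat_mul, Complex.exp_pi_mul_I]
  have h1 : ((-1 : ℂ) ^ m) * (-1) ^ m = 1 := by
    rw [← mul_pow]; simp
  linear_combination (-(g (θ + π) : ℂ) * exp (((m : ℝ) * θ : ℝ) * I)) * h1

theorem K_ii {g : ℝ → ℝ} (hg : Measurable g) (hC : ∀ θ, |g θ| ≤ C) (m : ℕ) (a b : ℝ) :
    IntervalIntegrable (K g m) volume a b := by
  have hm : Measurable (K g m) := by
    unfold K
    exact (Complex.measurable_ofReal.comp hg).mul (by fun_prop)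
  have hb : ∀ θ, ‖K g m θ‖ ≤ C := by
    intro θ
    unfold K
    rw [norm_mul, Complex.norm_exp_ofReal_mul_I, mul_one, Complex.norm_real]
    exact hC θ
  rw [intervalIntegrable_iff]
  have : IsFiniteMeasure (volume.restrict (uIoc a b)) :=
    ⟨by rw [Measure.restrict_apply_univ]; exact measure_Ioc_lt_top⟩
  exact Integrable.of_bound hm.aestronglyMeasurable C (ae_of_all _ hb)

theorem coef_shift {g : ℝ → ℝ} (hp : ∀ θ, g (θ + 2 * π) = g θ) (m : ℕ) :
    ∫ θ in (0 : ℝ)..(2 * π), (g (θ + π) : ℂ) * exp (((m : ℝ) * θ : ℝ) * I) =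
      (-1) ^ m * ∫ θ in (0 : ℝ)..(2 * π), K g m θ := by
  simp only [K_shift]
  rw [intervalIntegral.integral_const_mul, intervalIntegral.integral_comp_add_right (K g m) π]
  congr 1
  have h := (K_per hp m).intervalIntegral_add_eq π 0
  rw [zero_add] at h
  rw [← h]
  congr 1 <;> ring

theorem half {g : ℝ → ℝ} (hg : Measurable g) (hC : ∀ θ, |g θ| ≤ C)
    (hp : ∀ θ, g (θ + 2 * π) = g θ)
    (h : ∀ m : ℕ, Odd m → ∫ θ in (0 : ℝ)..(2 * π), (g θ : ℂ) * exp (((m : ℝ) * θ : ℝ) * I) = 0) :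
    ∀ᵐ θ : ℝ, g (θ + π) = g θ := by
  have hv := vanish (g := fun θ => g (θ + π) - g θ) (C := C + C)
    ((hg.comp (measurable_id.add_const π)).sub hg)
    (fun θ => (abs_sub _ _).trans (add_le_add (hC _) (hC _)))
    (fun θ => by
      have e : θ + 2 * π + π = θ + π + 2 * π := by ring
      simp only [e, hp]) (by
      intro m
      have hs : ∀ θ : ℝ, ((g (θ + π) - g θ : ℝ) : ℂ) * exp (((m : ℝ) * θ : ℝ) * I) =
          (g (θ + π) : ℂ) * exp (((m : ℝ) * θ : ℝ) * I) - K g m θ := by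
        intro θ
        unfold K
        push_cast
        ring
      simp only [hs]
      have hi : IntervalIntegrable (fun θ => (g (θ + π) : ℂ) * exp (((m : ℝ) * θ : ℝ) * I)) volume
          0 (2 * π) :=
        K_ii (g := fun θ => g (θ + π)) (hg.comp (measurable_id.add_const π)) (fun θ => hC _) m 0 (2 * π)
      rw [intervalIntegral.integral_sub hi (K_ii hg hC m 0 (2 * π)), coef_shift hp m]
      rcases Nat.even_or_odd m with hm | hm
      · rw [hm.neg_one_pow]
        ring
      · have h0 : ∫ θ in (0 : ℝ)..(2 * π), K g m θ = 0 := h m hm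
        rw [h0]
        ring)
  filter_upwards [hv] with θ hθ
  linarith

open Pool.Agent.N440.LB in
theorem t_FO : S_FO := by
  intro S hS hfin f C hf hC hp h
  have : IsFiniteMeasure (volume.restrict S) := ⟨by rwa [Measure.restrict_apply_univ]⟩
  have hA : ∀ m : ℕ, Odd m → ∫ z in S, ‖c f (m + 2) z‖ ^ 2 = ∫ z in S, ‖c f m z‖ ^ 2 := by
    intro m hm
    have h1 := h (m + 1) (Nat.le_add_left 1 m) hm.add_one
    rw [Nat.add_sub_cancel] at h1
    exact h1
  have hA2 : ∀ m j : ℕ, Odd m → ∫ z in S, ‖c f (m + 2 * j) z‖ ^ 2 = ∫ z in S, ‖c f m z‖ ^ 2 := by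
    intro m j hm
    induction j with
    | zero => rfl
    | succ j ih => exact (hA (m + 2 * j) (hm.add_even (even_two_mul j))).trans ih
  have hbd : ∀ m z, ‖c f m z‖ ^ 2 ≤ (C * (2 * π)) ^ 2 := fun m z =>
    pow_le_pow_left₀ (norm_nonneg _) (c_le hC m z) 2
  have hlim : Tendsto (fun m : ℕ => ∫ z in S, ‖c f m z‖ ^ 2) atTop (𝓝 0) := by
    have h1 := tendsto_integral_of_dominated_convergence (μ := volume.restrict S)
      (F := fun (m : ℕ) z => ‖c f m z‖ ^ 2) (f := fun _ => (0 : ℝ))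
      (fun _ => (C * (2 * π)) ^ 2)
      (fun m => ((c_meas hf m).norm.pow 2).aestronglyMeasurable) (integrable_const _)
      (fun m => ae_of_all _ fun z => by
        rw [Real.norm_of_nonneg (by positivity)]
        exact hbd m z)
      (ae_of_all _ fun z => c_tendsto hf hC z)
    simpa using h1
  have hA0 : ∀ m : ℕ, Odd m → ∫ z in S, ‖c f m z‖ ^ 2 = 0 := by
    intro m hm
    have h1 : Tendsto (fun j : ℕ => m + 2 * j) atTop atTop :=
      tendsto_atTop_mono (fun j => show j ≤ m + 2 * j by omega) tendsto_id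
    have h2 := hlim.comp h1
    have h3 : (fun m : ℕ => ∫ z in S, ‖c f m z‖ ^ 2) ∘ (fun j : ℕ => m + 2 * j) =
        fun _ => ∫ z in S, ‖c f m z‖ ^ 2 := by
      funext j
      exact hA2 m j hm
    rw [h3] at h2
    exact tendsto_nhds_unique tendsto_const_nhds h2
  have hae : ∀ m : ℕ, ∀ᵐ z ∂(volume.restrict S), Odd m → c f m z = 0 := by
    intro m
    by_cases hm : Odd m
    · have hint : Integrable (fun z => ‖c f m z‖ ^ 2) (volume.restrict S) :=
        Integrable.of_bound ((c_meas hf m).norm.pow 2).aestronglyMeasurable ((C * (2 * π)) ^ 2)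
          (ae_of_all _ fun z => by
            rw [Real.norm_of_nonneg (by positivity)]
            exact hbd m z)
      have h1 := (integral_eq_zero_iff_of_nonneg (fun z => by positivity) hint).1 (hA0 m hm)
      filter_upwards [h1] with z hz _
      have h2 : ‖c f m z‖ ^ 2 = 0 := hz
      rwa [sq_eq_zero_iff, norm_eq_zero] at h2
    · exact ae_of_all _ fun z h' => absurd h' hm
  filter_upwards [ae_all_iff.2 hae] with z hz
  exact half hf.of_uncurry_left (hC z) (hp z) fun m hm => hz m hm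

end Pool.Agent.N222.LB.FO
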